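import Pool.Agent.K1H49.PL.Gen

/-!
# Project PL, general case: two lemmas for the extension step
-/

namespace Pool.Agent.K1H40.PLG

open Pool.Agent.K1H49.PL

/-- patterns extend to greater heights -/
theorem ext0 {a N : ℕ} (E : LN a → Nd) (hE : Pt ndl a E) : ∃ E' : LN N → Nd, Pt ndl N E' ∧
    ∀ (η : LN N) (h : η.1.length ≤ a), E' η = E ⟨η.1, h⟩ := by
  refine ⟨fun η => E ⟨η.1.take a, by rw [List.length_take]; omega⟩ ++ η.1.drop a, ?_, ?_⟩
  · intro η η' d h
    unfold ndl
    dsimp only
    obtain ⟨r, hr⟩ := h
    rcases lt_or_ge η.1.length a with hl | hl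
    · have h1 : η.1.take a = η.1 := List.take_of_length_le hl.le
      have h2 : η.1.drop a = [] := List.drop_eq_nil_of_le hl.le
      have h3 : (η.1 ++ [d]) <+: η'.1.take a := by
        rw [← hr, List.take_append]
        have h4 : (η.1 ++ [d]).take a = η.1 ++ [d] := by
          apply List.take_of_length_le
          rw [List.length_append, List.length_singleton]
          omega
        rw [h4]
        exact List.prefix_append _ _
      have h5 := hE ⟨η.1.take a, by rw [List.length_take]; omega⟩
        ⟨η'.1.take a, by rw [List.length_take]; omega⟩ d (by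
          dsimp only
          rw [h1]
          exact h3)
      rw [h2, List.append_nil]
      exact List.IsPrefix.trans h5 (List.prefix_append _ _)
    · have h1 : η'.1.take a = η.1.take a := by
        rw [← hr, List.append_assoc, List.take_append_of_le_length hl]
      have h2 : η'.1.drop a = η.1.drop a ++ ([d] ++ r) := by
        rw [← hr, List.append_assoc, List.drop_append_of_le_length hl]
      refine ⟨r, ?_⟩
      rw [h2]
      have h3 : (⟨η'.1.take a, by rw [List.length_take]; omega⟩ : LN a) =
          ⟨η.1.take a, by rw [List.length_take]; omega⟩ := Subtype.ext h1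
      rw [h3]
      simp only [List.append_assoc]
  · intro η h
    dsimp only
    have h1 : η.1.take a = η.1 := List.take_of_length_le h
    have h2 : η.1.drop a = [] := List.drop_eq_nil_of_le h
    rw [h2, List.append_nil]
    congr 1
    exact Subtype.ext h1

open Classical in
/-- replacing the part of a pattern above `π` by patterns in copies above `π` -/
theorem ptmod {I : Type} {lt : Bool → I → I → Prop} (hB : BT lt) {π : I} {C0 C1 : Nd → I}
    (h0 : Cpy lt C0) (h0' : ∀ ρ, lt false π (C0 ρ)) (h1 : Cpy lt C1) (h1' : ∀ ρ, lt true π (C1 ρ))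
    {n : ℕ} {E0 : LN n → I} (hE : Pt lt n E0) {A B : LN n → Nd} (hA : Pt ndl n A)
    (hB' : Pt ndl n B) :
    Pt lt n (fun η => if lt false π (E0 η) then C0 (A η) else
      if lt true π (E0 η) then C1 (B η) else E0 η) := by
  intro η η' d' h
  have hlt := hE η η' d' h
  dsimp only
  -- below an element of a cone
  have up : ∀ d, lt d π (E0 η) → lt d π (E0 η') := fun d hd => hB.trans hd hlt
  have excl : ∀ x, lt false π x → ¬ lt true π x := fun x ha hb =>
    absurd (hB.uniq ha hb) (by decide)
  -- `E0 η` outside the cones, `E0 η'` in the cone `d`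
  have out : ∀ d, ¬ lt false π (E0 η) → ¬ lt true π (E0 η) → lt d π (E0 η') →
      ∀ y, lt d π y → lt d' (E0 η) y := by
    intro d hf ht hd y hy
    rcases hB.lin hlt hd with heq | ⟨e, he⟩ | ⟨e, he⟩
    · rw [heq] at hlt ⊢
      have := hB.uniq hlt hd
      rw [this]
      exact hy
    · have h3 := hB.trans he hd
      have h4 := hB.uniq h3 hlt
      rw [← h4]
      exact hB.trans he hy
    · exfalso
      have h3 := hB.trans he hlt
      have h4 := hB.uniq h3 hd
      cases e with
      | false => exact hf he
      | true => exact ht he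
  by_cases hf : lt false π (E0 η)
  · rw [if_pos hf, if_pos (up false hf)]
    exact h0 _ _ _ (hA η η' d' h)
  · rw [if_neg hf]
    by_cases ht : lt true π (E0 η)
    · have h2 := up true ht
      rw [if_pos ht, if_neg (fun h3 => excl _ h3 h2), if_pos h2]
      exact h1 _ _ _ (hB' η η' d' h)
    · rw [if_neg ht]
      by_cases hf' : lt false π (E0 η')
      · rw [if_pos hf']
        exact out false hf ht hf' _ (h0' _)
      · rw [if_neg hf']
        by_cases ht' : lt true π (E0 η')
        · rw [if_pos ht']
          exact out true hf ht ht' _ (h1' _)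
        · rw [if_neg ht']
          exact hlt

/-- `π` is in no cone of itself -/
theorem irr {I : Type} {lt : Bool → I → I → Prop} (hB : BT lt) (d : Bool) (a : I) :
    ¬ lt d a a := fun h => (hB.wf.isIrrefl.irrefl a) ⟨d, h⟩

end Pool.Agent.K1H40.PLG
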